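import Pool.Agent.Y97.AB.Tau
import Pool.Agent.Y668.AB.Prod

/-!
# The determinant formula for the form on powers
-/

set_option linter.unusedSectionVars false

open CategoryTheory AlgebraicGeometry Finset

universe u v

namespace Pool.Agent.Y779.AB

open Pool.Agent.H914 Pool.Agent.H914.VarClass Pool.Agent.H914.VarClass.Obj
  Pool.Agent.H914.WeilCohomology Pool.Agent.H281R3.HT Pool.Agent.W552 Pool.Agent.W539.Ker
  Pool.Agent.Y97 Pool.Agent.Y97.FD Pool.Agent.Y97.AB

variable {k : Type u} [Field k] {𝒱 : VarClass k} {ops : CycleOps 𝒱}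
  {W : WeilCohomology.{u, v} ops} {P : Polarized 𝒱} {f : Module.End W.K (W.H P.X)}

lemma ext_one_one (X Y : 𝒱.Obj) : ext W (1 : W.H X) (1 : W.H Y) = 1 := by
  rw [H281R3.HT.ext, map_one, map_one, mul_one]

lemma ext_one_right {X Y : 𝒱.Obj} (a : W.H X) : ext W a (1 : W.H Y) = W.map (fst X Y) a := by
  rw [H281R3.HT.ext, map_one, mul_one]

lemma ext_one_left {X Y : 𝒱.Obj} (c : W.H Y) : ext W (1 : W.H X) c = W.map (snd X Y) c := by
  rw [H281R3.HT.ext, map_one, one_mul]

theorem bfs_one (G : Gp W P.X P.D f) (t : ℕ) :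
    bfs W P f t 1 1 = (bf W P.X P.D f 1 1) ^ (t + 1) := by
  induction t with
  | zero => rw [zero_add, pow_one]; rfl
  | succ t ih =>
    have h := bfs_ext G t (1 : W.H P.X) 1 (1 : W.H (power ops P t).X) 1
    rw [ih] at h
    rw [pow_succ' _ (t + 1), ← h]
    have h1 := ext_one_one (W := W) P.X (power ops P t).X
    exact congrArg₂ (fun a b => bfs W P f (t + 1) a b) h1.symm h1.symm

lemma ev_zero (b : HB W P.X) (t : ℕ) (x : Fin (N1 b)) :
    ev (ops := ops) b (t + 1) 0 x =
      ext W (X := P.X) (Y := (power ops P t).X) (e1 b x) (1 : W.H (power ops P t).X) :=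
  (ext_one_right (W := W) (Y := (power ops P t).X) (e1 b x)).symm

lemma ev_succ (b : HB W P.X) (t : ℕ) (i : Fin (t + 1)) (x : Fin (N1 b)) :
    ev (ops := ops) b (t + 1) i.succ x =
      ext W (X := P.X) (Y := (power ops P t).X) (1 : W.H P.X) (ev b t i x) := by
  refine Eq.trans ?_ (ext_one_left (W := W) (X := P.X) (ev (ops := ops) b t i x)).symm
  exact W.map_comp (snd P.X (power ops P t).X) (pr ops P t i) (e1 b x)

lemma bf_e1_one (G : Gp W P.X P.D f) (b : HB W P.X) (x : Fin (N1 b)) :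
    bf W P.X P.D f (e1 b x) 1 = 0 :=
  G.fr.bf_deg (e1_mem b x) (W.one_mem P.X) one_ne_zero

lemma bf_one_e1 (G : Gp W P.X P.D f) (b : HB W P.X) (x : Fin (N1 b)) :
    bf W P.X P.D f 1 (e1 b x) = 0 :=
  G.fr.bf_deg (W.one_mem P.X) (e1_mem b x) zero_ne_one

theorem bfs_ev (G : Gp W P.X P.D f) (b : HB W P.X) (t : ℕ) (i j : Fin (t + 1))
    (x y : Fin (N1 b)) :
    bfs W P f t (ev b t i x) (ev b t j y) =
      if i = j then bf W P.X P.D f (e1 b x) (e1 b y) * (bf W P.X P.D f 1 1) ^ t else 0 := by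
  induction t with
  | zero =>
    have hi : i = 0 := Fin.eq_zero i
    have hj : j = 0 := Fin.eq_zero j
    subst hi
    subst hj
    rw [if_pos rfl, pow_zero, mul_one]
    have h1 : ∀ z : Fin (N1 b), ev (ops := ops) b 0 0 z = e1 b z :=
      fun z => W.map_id P.X (e1 b z)
    rw [h1, h1]
    rfl
  | succ t ih =>
    refine Fin.cases ?_ (fun i' => ?_) i
    · refine Fin.cases ?_ (fun j' => ?_) j
      · rw [if_pos rfl, ev_zero, ev_zero]
        refine (bfs_ext G t (e1 b x) (e1 b y) 1 1).trans ?_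
        rw [bfs_one G]
      · rw [if_neg (Fin.succ_ne_zero j').symm, ev_zero, ev_succ]
        refine (bfs_ext G t (e1 b x) 1 1 (ev b t j' y)).trans ?_
        rw [bf_e1_one G, zero_mul]
    · refine Fin.cases ?_ (fun j' => ?_) j
      · rw [if_neg (Fin.succ_ne_zero i'), ev_zero, ev_succ]
        refine (bfs_ext G t 1 (e1 b y) (ev b t i' x) 1).trans ?_
        rw [bf_one_e1 G, zero_mul]
      · rw [ev_succ, ev_succ]
        refine (bfs_ext G t 1 1 (ev b t i' x) (ev b t j' y)).trans ?_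
        rw [ih i' j']
        by_cases h : i' = j'
        · rw [if_pos h, if_pos (congrArg Fin.succ h), pow_succ']
          ring
        · rw [if_neg h, if_neg (fun h' => h (Fin.succ_injective _ h')), mul_zero]

theorem kf (G : Gp W P.X P.D f) (hd : Der W P.X P.D f) (b : HB W P.X)
    (h1 : bf W P.X P.D f 1 1 ≠ 0) (t : ℕ) : KF W P f b t := by
  intro n φ ψ x y
  have h2 : bfs W P f t 1 1 ≠ 0 := by
    rw [bfs_one G]
    exact pow_ne_zero _ h1
  refine (Pool.Agent.Y668.AB.bf_prod_det (Pool.Agent.Y668.AB.der_power G hd t) h2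
    (fun l => ev b t (φ l) (x l)) (fun l => ev b t (ψ l) (y l))
    (fun _ => ev_mem b t _ _) (fun _ => ev_mem b t _ _)).trans ?_
  have h3 : (Matrix.of fun i j => bf W (power ops P t).X (power ops P t).D (frm W P f t)
      (ev b t (φ i) (x i)) (ev b t (ψ j) (y j)) /
        bf W (power ops P t).X (power ops P t).D (frm W P f t) 1 1) =
      (Matrix.of fun i j => if φ i = ψ j then G1 b f (x i) (y j) else 0) := by
    ext i j
    rw [Matrix.of_apply, Matrix.of_apply]
    have h4 := bfs_ev G b t (φ i) (ψ j) (x i) (y j)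
    have h5 : bfs W P f t (ev b t (φ i) (x i)) (ev b t (ψ j) (y j)) / bfs W P f t 1 1 =
        if φ i = ψ j then G1 b f (x i) (y j) else 0 := by
      rw [h4, bfs_one G]
      by_cases h : φ i = ψ j
      · rw [if_pos h, if_pos h, G1, Matrix.of_apply, pow_succ, mul_comm
          (bf W P.X P.D f 1 1 ^ t) (bf W P.X P.D f 1 1)]
        exact mul_div_mul_right _ _ (pow_ne_zero _ h1)
      · rw [if_neg h, if_neg h, zero_div]
    exact h5
  rw [h3]
  rfl

end Pool.Agent.Y779.AB
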